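import Mathlib

set_option autoImplicit false

/-!
# Lucky twins: a divisibility criterion, and indices which are never twin indices
-/

namespace Pool.Agent.Results.MP_16e23c_nt.TwinCriterion

/-- `T j m` is the `m`-th element (counted from `0`) of the list left after `j` sieving steps,
starting with the odd numbers; the `(j+1)`-st step deletes every `d`-th element of the list `T j`,
`d = T j (j + 1)`. -/
def T : ℕ → ℕ → ℕ
  | 0 => fun m => 2 * m + 1
  | j + 1 => fun m => T j (m + m / (T j (j + 1) - 1))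

/-- `x` is lucky if it is in every list. -/
def Lucky (x : ℕ) : Prop := ∀ j, x ∈ Set.range (T j)

/-- the `m`-th lucky number, from `0` -/
noncomputable def lk (m : ℕ) : ℕ := Nat.nth Lucky m

/-- the number of elements of the list `T j` which are less than the `m`-th lucky number -/
noncomputable def pos (j m : ℕ) : ℕ := Set.ncard {y | y ∈ Set.range (T j) ∧ y < lk m}

lemma T_succ (j m : ℕ) : T (j + 1) m = T j (m + m / (T j (j + 1) - 1)) := rfl

lemma T_mono (j : ℕ) : StrictMono (T j) := by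
  induction j with
  | zero => intro a b h; simp only [T]; omega
  | succ j ih =>
    intro a b h
    rw [T_succ, T_succ]
    apply ih
    have : a / (T j (j + 1) - 1) ≤ b / (T j (j + 1) - 1) := Nat.div_le_div_right h.le
    omega

lemma T_ge (j m : ℕ) : 2 * m + 1 ≤ T j m := by
  induction j generalizing m with
  | zero => simp [T]
  | succ j ih =>
    rw [T_succ]
    exact le_trans (by have := Nat.zero_le (m / (T j (j + 1) - 1)); omega) (ih _)

lemma T_odd (j m : ℕ) : T j m % 2 = 1 := by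
  induction j generalizing m with
  | zero => simp only [T]; omega
  | succ j ih => rw [T_succ]; exact ih _

lemma T_gap (j : ℕ) {a b : ℕ} (h : a < b) : T j a + 2 * (b - a) ≤ T j b := by
  obtain ⟨d, rfl⟩ : ∃ d, b = a + d := ⟨b - a, by omega⟩
  clear h
  induction d with
  | zero => simp
  | succ d ih =>
    have h1 := T_mono j (show a + d < a + (d + 1) by omega)
    have h2 := T_odd j (a + d)
    have h3 := T_odd j (a + (d + 1))
    omega

lemma T_stable {j m : ℕ} (h : m < T j (j + 1) - 1) : T (j + 1) m = T j m := by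
  rw [T_succ, Nat.div_eq_of_lt h, add_zero]

lemma T_stable1 {j m : ℕ} (h : m ≤ j + 1) : T (j + 1) m = T j m := by
  apply T_stable
  have := T_ge j (j + 1)
  omega

lemma T_eq {j m : ℕ} (h : m ≤ j + 1) : T j m = T m m := by
  rcases Nat.lt_or_ge j m with h1 | h1
  · obtain rfl : m = j + 1 := by omega
    exact (T_stable1 le_rfl).symm
  · induction j, h1 using Nat.le_induction with
    | base => rfl
    | succ j hj ih => rw [T_stable1 (by omega)]; exact ih (by omega)

lemma range_anti {i j : ℕ} (h : i ≤ j) : Set.range (T j) ⊆ Set.range (T i) := by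
  induction j, h using Nat.le_induction with
  | base => exact le_rfl
  | succ j hj ih =>
    refine le_trans ?_ ih
    rintro x ⟨m, rfl⟩
    exact ⟨_, (T_succ j m).symm⟩

lemma lucky_T (m : ℕ) : Lucky (T m m) := by
  intro j
  rcases Nat.lt_or_ge j m with h | h
  · exact range_anti h.le ⟨m, rfl⟩
  · exact ⟨m, T_eq (by omega)⟩

lemma diag_mono : StrictMono (fun m => T m m) := by
  intro a b h
  show T a a < T b b
  rw [← T_eq (j := b) (m := a) (by omega)]
  exact T_mono b h

lemma lucky_iff {x : ℕ} : Lucky x ↔ ∃ m, T m m = x := by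
  constructor
  · intro h
    obtain ⟨m, hm⟩ := h x
    have := T_ge x m
    exact ⟨m, by rw [← T_eq (j := x) (m := m) (by omega)]; exact hm⟩
  · rintro ⟨m, rfl⟩
    exact lucky_T m

lemma lk_eq (m : ℕ) : lk m = T m m := by
  have h := Nat.nth_comp_of_strictMono (p := Lucky) (n := m) diag_mono
    (fun k hk => by
      obtain ⟨m, hm⟩ := lucky_iff.1 hk
      exact ⟨m, hm⟩)
    (fun hfin => by
      exfalso
      refine (Set.infinite_range_of_injective diag_mono.injective).mono ?_ hfin
      rintro x ⟨m, rfl⟩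
      exact lucky_T m)
  have h2 : (fun i => Lucky ((fun m => T m m) i)) = fun _ => True := by
    funext i
    exact eq_true (lucky_T i)
  rw [h2, Nat.nth_true] at h
  exact h.symm

lemma lk_mono : StrictMono lk := by
  have : lk = fun m => T m m := funext lk_eq
  rw [this]; exact diag_mono

lemma T_lk (j : ℕ) : T j (j + 1) = lk (j + 1) := by rw [lk_eq, T_eq le_rfl]

lemma lk_mem (j m : ℕ) : lk m ∈ Set.range (T j) := by rw [lk_eq]; exact lucky_T m j

lemma pos_eq {j m a : ℕ} (h : T j a = lk m) : pos j m = a := by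
  unfold pos
  have : {y | y ∈ Set.range (T j) ∧ y < lk m} = T j '' (Set.Iio a) := by
    ext y
    simp only [Set.mem_ofPred_eq, Set.mem_range, Set.mem_image, Set.mem_Iio]
    constructor
    · rintro ⟨⟨b, rfl⟩, hb⟩
      exact ⟨b, (T_mono j).lt_iff_lt.1 (by rw [h]; exact hb), rfl⟩
    · rintro ⟨b, hb, rfl⟩
      exact ⟨⟨b, rfl⟩, by rw [← h]; exact T_mono j hb⟩
  rw [this, Set.ncard_image_of_injective _ (T_mono j).injective, ← Finset.coe_Iio,
    Set.ncard_coe_finset, Nat.card_Iio]

lemma T_pos (j m : ℕ) : T j (pos j m) = lk m := by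
  obtain ⟨a, ha⟩ := lk_mem j m
  rw [pos_eq ha, ha]

lemma pos_rec (j m : ℕ) : pos j m = pos (j + 1) m + pos (j + 1) m / (lk (j + 1) - 1) := by
  apply pos_eq
  rw [← T_lk, ← T_succ, T_pos]

lemma pos_top {j m : ℕ} (h : m + 1 < lk (j + 1)) : pos j m = m := by
  apply pos_eq
  rw [lk_eq]
  rcases Nat.lt_or_ge j m with h1 | h1
  · have key : ∀ i, j ≤ i → T i m = T j m := by
      intro i hi
      induction i, hi using Nat.le_induction with
      | base => rfl
      | succ i hi ih =>
        rw [T_stable, ih]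
        rw [T_lk]
        have : lk (j + 1) ≤ lk (i + 1) := lk_mono.monotone (by omega)
        omega
    exact (key m h1.le).symm
  · exact T_eq (by omega)

lemma T_one_even (q : ℕ) : T 1 (2 * q) = 6 * q + 1 := by
  have : T 1 (2 * q) = 2 * (2 * q + 2 * q / (3 - 1)) + 1 := rfl
  omega

lemma T_one_odd (q : ℕ) : T 1 (2 * q + 1) = 6 * q + 3 := by
  have : T 1 (2 * q + 1) = 2 * (2 * q + 1 + (2 * q + 1) / (3 - 1)) + 1 := rfl
  omega

lemma T_one_step (b : ℕ) : T 1 (b + 1) ≤ T 1 b + 4 ∧ (T 1 (b + 1) % 3 = 0 → T 1 (b + 1) = T 1 b + 2)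
    ∧ (T 1 (b + 1) = T 1 b + 2 → T 1 (b + 1) % 3 = 0) := by
  rcases Nat.even_or_odd' b with ⟨q, rfl | rfl⟩
  · rw [T_one_even, T_one_odd]; omega
  · rw [show 2 * q + 1 + 1 = 2 * (q + 1) by ring, T_one_even, T_one_odd]; omega

lemma T_mod6 {j : ℕ} (hj : 1 ≤ j) (m : ℕ) : T j m % 6 = 1 ∨ T j m % 6 = 3 := by
  obtain ⟨b, hb⟩ := range_anti hj ⟨m, rfl⟩
  rw [← hb]
  rcases Nat.even_or_odd' b with ⟨q, rfl | rfl⟩
  · rw [T_one_even]; omega
  · rw [T_one_odd]; omega

lemma T_gap6 {j a b : ℕ} (hj : 1 ≤ j) (h : a + 2 ≤ b) : T j a + 6 ≤ T j b := by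
  have h1 := T_mono j (show a < a + 1 by omega)
  have h2 : T j (a + 1) < T j b := T_mono j (by omega)
  have m1 := T_mod6 hj a
  have m2 := T_mod6 hj (a + 1)
  have m3 := T_mod6 hj b
  omega

/-- if `m_k - 1`, `k ≥ 3`, divides the number of elements of `L_k` below `l_n` then the gap below
`l_n` is at least `6` -/
lemma gap_of_dvd {j m : ℕ} (hj : 1 ≤ j) (hm : 1 ≤ m) (h : lk (j + 1) - 1 ∣ pos (j + 1) m) :
    lk (m - 1) + 6 ≤ lk m := by
  have hb := T_pos (j + 1) (m - 1)
  have ha := T_pos (j + 1) m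
  set a := pos (j + 1) m
  set b := pos (j + 1) (m - 1)
  have hlt : b < a := by
    rw [← (T_mono (j + 1)).lt_iff_lt, hb, ha]
    exact lk_mono (by omega)
  rcases Nat.lt_or_ge (b + 1) a with h1 | h1
  · have := T_gap6 (j := j + 1) (by omega) (show b + 2 ≤ a by omega)
    omega
  · have hab : a = b + 1 := by omega
    rw [hab] at ha h
    rw [T_succ, T_lk] at ha hb
    rw [Nat.succ_div, if_pos h] at ha
    have := T_gap6 (j := j) hj
      (show b + b / (lk (j + 1) - 1) + 2 ≤ b + 1 + (b / (lk (j + 1) - 1) + 1) by omega)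
    omega

/-- without such divisibilities `l_(n-1)` and `l_n` are neighbours in `L_2` -/
lemma adjacent {m : ℕ} (hm : 1 ≤ m) (h : ∀ j, 1 ≤ j → ¬ (lk (j + 1) - 1 ∣ pos (j + 1) m)) :
    ∃ b, T 1 b = lk (m - 1) ∧ T 1 (b + 1) = lk m := by
  have h2 : lk (m - 1) < lk m := lk_mono (by omega)
  have h1 := T_pos 1 m
  obtain ⟨b0, hb0⟩ : ∃ b0, pos 1 m = b0 + 1 := by
    refine ⟨pos 1 m - 1, ?_⟩
    have : pos 1 m ≠ 0 := by
      intro h0
      rw [h0] at h1
      have h3 : T 1 0 = 1 := rfl
      have h4 := T_ge (m - 1) (m - 1)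
      rw [← lk_eq] at h4
      omega
    omega
  rw [hb0] at h1
  have key : ∀ j, 1 ≤ j → ∃ b, T j b = T 1 b0 ∧ T j (b + 1) = lk m := by
    intro j hj
    induction j, hj using Nat.le_induction with
    | base => exact ⟨b0, rfl, h1⟩
    | succ j hj ih =>
      obtain ⟨b, hb, hb'⟩ := ih
      have ha := T_pos (j + 1) m
      have hd := h j hj
      set a := pos (j + 1) m
      obtain ⟨e, he⟩ : ∃ e, a = e + 1 := by
        refine ⟨a - 1, ?_⟩
        have : a ≠ 0 := by
          rintro h0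
          exact hd (by rw [h0]; exact dvd_zero _)
        omega
      rw [he] at ha hd
      refine ⟨e, ?_, ha⟩
      rw [T_succ, T_lk, Nat.succ_div, if_neg hd, add_zero, ← hb'] at ha
      have := (T_mono j).injective ha
      rw [T_succ, T_lk, ← hb]
      congr 1
      omega
  have hl : Lucky (T 1 b0) := by
    intro j
    rcases Nat.eq_zero_or_pos j with rfl | hj
    · exact range_anti (Nat.zero_le 1) ⟨b0, rfl⟩
    · obtain ⟨b, hb, _⟩ := key j hj
      exact ⟨b, hb⟩
  obtain ⟨i, hi⟩ := lucky_iff.1 hl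
  rw [← lk_eq] at hi
  have hi1 : i < m := by
    rw [← lk_mono.lt_iff_lt, hi, ← h1]
    exact T_mono 1 (by omega)
  have h3 : lk i ≤ lk (m - 1) := lk_mono.monotone (by omega)
  obtain ⟨u, hu⟩ := lk_mem 1 (m - 1)
  have hu1 : u < b0 + 1 := by rw [← (T_mono 1).lt_iff_lt, hu, h1]; exact h2
  have hu2 : b0 ≤ u := by rw [← (T_mono 1).le_iff_le, hu, ← hi]; exact h3
  have : u = b0 := by omega
  exact ⟨b0, by rw [← this, hu], h1⟩

lemma lk_zero : lk 0 = 1 := by rw [lk_eq]; rfl

lemma lk_one : lk 1 = 3 := by rw [lk_eq]; rfl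

lemma lucky_iff_lk {x : ℕ} : Lucky x ↔ ∃ m, lk m = x := by
  rw [lucky_iff]
  simp only [lk_eq]

/-- the number of lucky numbers up to `x` -/
noncomputable def lpi (x : ℕ) : ℕ := Set.ncard {y | Lucky y ∧ y ≤ x}

lemma lpi_eq {x r : ℕ} (h1 : ∀ i, i < r → lk i ≤ x) (h2 : x < lk r) : lpi x = r := by
  unfold lpi
  have : {y | Lucky y ∧ y ≤ x} = lk '' (Set.Iio r) := by
    ext y
    simp only [Set.mem_ofPred_eq, Set.mem_image, Set.mem_Iio]
    constructor
    · rintro ⟨hy, hyx⟩
      obtain ⟨m, rfl⟩ := lucky_iff_lk.1 hy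
      exact ⟨m, lk_mono.lt_iff_lt.1 (lt_of_le_of_lt hyx h2), rfl⟩
    · rintro ⟨m, hm, rfl⟩
      exact ⟨lucky_iff_lk.2 ⟨m, rfl⟩, h1 m hm⟩
  rw [this, Set.ncard_image_of_injective _ lk_mono.injective, ← Finset.coe_Iio,
    Set.ncard_coe_finset, Nat.card_Iio]

lemma exists_lpi (x : ℕ) : ∃ r, (∀ i, i < r → lk i ≤ x) ∧ x < lk r := by
  classical
  have hex : ∃ r, x < lk r := ⟨x, by
    have := T_ge x x
    rw [← lk_eq] at this
    omega⟩
  refine ⟨Nat.find hex, fun i hi => ?_, Nat.find_spec hex⟩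
  exact not_lt.1 (Nat.find_min hex hi)

lemma lpi_lk (i : ℕ) : lpi (lk i) = i + 1 :=
  lpi_eq (fun a ha => lk_mono.monotone (by omega)) (lk_mono (by omega))

/-- the gap at a lucky index -/
lemma gap_of_lucky {n : ℕ} (hn : 3 < n) (h : Lucky n) : lk (n - 2) + 6 ≤ lk (n - 1) := by
  obtain ⟨i, hi⟩ := lucky_iff_lk.1 h
  obtain ⟨j, rfl⟩ : ∃ j, i = j + 2 := by
    refine ⟨i - 2, ?_⟩
    have h0 : i ≠ 0 := by
      rintro rfl
      rw [lk_zero] at hi
      omega
    have h1 : i ≠ 1 := by
      rintro rfl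
      rw [lk_one] at hi
      omega
    omega
  have h1 : pos (j + 1 + 1) (n - 1) = n - 1 := pos_top (by
    have := lk_mono (show j + 2 < j + 1 + 1 + 1 by omega)
    omega)
  have := gap_of_dvd (j := j + 1) (m := n - 1) (by omega) (by omega) (by rw [h1, hi])
  rwa [show n - 1 - 1 = n - 2 by omega] at this

/-- the second family -/
lemma gap_second {n l : ℕ} (hn : 2 ≤ n) (hl : Lucky l) (h3l : 3 < l)
    (h : n + lpi n + 1 = 2 * l + lpi l) : lk (n - 2) + 6 ≤ lk (n - 1) := by
  obtain ⟨i, rfl⟩ := lucky_iff_lk.1 hl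
  rw [lpi_lk] at h
  obtain ⟨r, hr1, hr2⟩ := exists_lpi n
  rw [lpi_eq hr1 hr2] at h
  -- `i < r`
  have hir : i < r := by
    by_contra hc
    push Not at hc
    have := lk_mono.monotone hc
    omega
  obtain ⟨j, rfl⟩ : ∃ j, i = j + 2 := by
    refine ⟨i - 2, ?_⟩
    have h0 : i ≠ 0 := by
      rintro rfl
      rw [lk_zero] at h3l
      omega
    have h1 : i ≠ 1 := by
      rintro rfl
      rw [lk_one] at h3l
      omega
    omega
  -- positions at the levels between
  have key : ∀ d, d + (j + 2) ≤ r - 1 → pos (r - 1 - d) (n - 1) = n - 1 + d := by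
    intro d
    induction d with
    | zero =>
      intro _
      rw [Nat.sub_zero, add_zero]
      exact pos_top (by rw [show r - 1 + 1 = r by omega]; omega)
    | succ d ih =>
      intro hd
      have ih := ih (by omega)
      have e : r - 1 - d = (r - 1 - (d + 1)) + 1 := by omega
      rw [pos_rec, ← e, ih]
      have h1 : lk (r - 1 - d) ≤ n := hr1 _ (by omega)
      have h2 : lk (j + 2) < lk (r - 1 - d) := lk_mono (by omega)
      have h3 : (n - 1 + d) / (lk (r - 1 - d) - 1) = 1 := by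
        rw [Nat.div_eq_iff (by omega)]
        omega
      rw [h3]
      omega
  have h1 := key (r - 1 - (j + 2)) (by omega)
  rw [show r - 1 - (r - 1 - (j + 2)) = j + 1 + 1 by omega] at h1
  have := gap_of_dvd (j := j + 1) (m := n - 1) (by omega) (by omega) (by
    rw [h1]
    refine ⟨2, ?_⟩
    change n - 1 + (r - 1 - (j + 2)) = (lk (j + 2) - 1) * 2
    omega)
  rwa [show n - 1 - 1 = n - 2 by omega] at this

/-- **Small gaps between lucky numbers.**  Here `lk m` is the `m`-th lucky number from `0`, so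
`lk (n - 1)` is the `n`-th lucky number `l_n`; `T j` enumerates the list `L_(j+1)`; `lk (j + 1)` is
`m_(j+2)`, the number used to pass from `L_(j+1)` to `L_(j+2)`; `pos j m` is the number of elements
of `L_(j+1)` below `lk m`.  The gap `l_n - l_(n-1)` is at most `4` if and only if for no `k ≥ 3` the
number `m_k - 1` divides the number of elements of `L_k` below `l_n`, and then it is `2` if and only
if `3` divides `l_n`; in particular the gap is at least `6` if the index `n > 3` is itself lucky, or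
if `n + π(n) + 1 = 2 l + π(l)` for a lucky number `l > 3`. -/
theorem result :
    (∀ m, 1 ≤ m →
      (lk m ≤ lk (m - 1) + 4 ↔ ∀ j, 1 ≤ j → ¬ (lk (j + 1) - 1 ∣ pos (j + 1) m)) ∧
      (lk m = lk (m - 1) + 2 ↔
        3 ∣ lk m ∧ ∀ j, 1 ≤ j → ¬ (lk (j + 1) - 1 ∣ pos (j + 1) m))) ∧
    (∀ n, 3 < n → (Lucky n ∨ ∃ l, Lucky l ∧ 3 < l ∧ n + lpi n + 1 = 2 * l + lpi l) →
      lk (n - 2) + 6 ≤ lk (n - 1)) := by
  refine ⟨fun m hm => ?_, fun n hn h => ?_⟩
  · have key : lk m ≤ lk (m - 1) + 4 ↔ ∀ j, 1 ≤ j → ¬ (lk (j + 1) - 1 ∣ pos (j + 1) m) := by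
      refine ⟨fun h j hj hd => ?_, fun h => ?_⟩
      · have := gap_of_dvd hj hm hd
        omega
      · obtain ⟨b, h1, h2⟩ := adjacent hm h
        have := (T_one_step b).1
        omega
    refine ⟨key, ⟨fun h => ?_, fun h => ?_⟩⟩
    · have h4 := key.1 (by omega)
      obtain ⟨b, h1, h2⟩ := adjacent hm h4
      refine ⟨?_, h4⟩
      have := (T_one_step b).2.2 (by omega)
      omega
    · obtain ⟨b, h1, h2⟩ := adjacent hm h.2
      have := (T_one_step b).2.1 (by omega)
      omega
  · rcases h with h | ⟨l, hl, hl3, h⟩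
    · exact gap_of_lucky hn h
    · exact gap_second (by omega) hl hl3 h

end Pool.Agent.Results.MP_16e23c_nt.TwinCriterion
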